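import Mathlib
import Pool.Agent.Helper76.OV.Fin
import Pool.Agent.Helper22.OV.Shift

/-!
# The circle problem for ovals: exponent `5/8 + ε` for every oval and every centre
-/

set_option autoImplicit false
open MeasureTheory Real

namespace Pool.Agent.Helper92.Keep.AllOvals58

/-- `H` is the support function of a convex domain with boundary of class `C⁵` and positive radius of curvature `H + H''`. -/
def IsSupport (H : ℝ → ℝ) : Prop :=
  ContDiff ℝ 5 H ∧ Function.Periodic H (2 * π) ∧ ∀ t, 0 < H t + deriv (deriv H) t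

/-- The number of integer points in `c + R · D`, where `D = {p | p.1 cos t + p.2 sin t ≤ H t for all t}`. -/
noncomputable def latticeCount (H : ℝ → ℝ) (c : ℝ × ℝ) (R : ℝ) : ℝ :=
  (Nat.card {k : ℤ × ℤ // ∀ t : ℝ, ((k.1 : ℝ) - c.1) * cos t + ((k.2 : ℝ) - c.2) * sin t ≤ R * H t} : ℝ)

/-- The area of `D`. -/
noncomputable def area (H : ℝ → ℝ) : ℝ :=
  (volume {p : ℝ × ℝ | ∀ t : ℝ, p.1 * cos t + p.2 * sin t ≤ H t}).toReal

/-- For every oval `D` with support function `H` of class `C⁵` and every `ε > 0` there is `C` such that for all `R ≥ 1` and all centres `c` the number of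
integer points in `c + R · D` is the area of `R · D` with an error of at most `C R^(5/8 + ε)`. -/
theorem result : ∀ H : ℝ → ℝ, IsSupport H → ∀ ε : ℝ, 0 < ε →
    ∃ C : ℝ, ∀ R : ℝ, 1 ≤ R → ∀ c : ℝ × ℝ, |latticeCount H c R - area H * R ^ 2| ≤ C * R ^ (5 / 8 + ε) := by
  intro H hH ε hε
  obtain ⟨h5, hp, hr⟩ := hH
  have h2 : ContDiff ℝ 2 H := h5.of_le (by norm_num)
  obtain ⟨v, hv⟩ := Pool.Agent.Helper22.OV.exists_shift h2 hp hr
  obtain ⟨C, hC⟩ := Pool.Agent.Helper76.OV.main_ovals hv (Pool.Agent.Helper22.OV.shf_smooth v h5) hε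
  refine ⟨C, fun R hR c => ?_⟩
  have h := hC R hR (c.1 - R * v.1, c.2 - R * v.2)
  rw [Pool.Agent.Helper22.OV.cntc_shf, Pool.Agent.Helper22.OV.area_shf] at h
  exact h

end Pool.Agent.Helper92.Keep.AllOvals58
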