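import Mathlib
import Pool.Agent.Helper92.LA.Fin3
import Pool.Agent.Helper92.LB.Fin

/-!
# The circle problem for almost every lattice: exponent `5/9 + ε` for every smooth oval and every centre, exponent `6/11 + ε` for almost every centre, and
exponent `1/2` in the twentieth mean over the radii
-/

set_option autoImplicit false
open MeasureTheory Real

namespace Pool.Agent.Helper92.Keep.AlmostEveryLattice3

/-- `H` is the support function of a convex domain with positive radius of curvature `H + H''`, of class `C⁵`. -/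
def IsSupport (H : ℝ → ℝ) : Prop :=
  ContDiff ℝ 5 H ∧ Function.Periodic H (2 * π) ∧ ∀ t, 0 < H t + deriv (deriv H) t

/-- The determinant of the vectors `a`, `b`. -/
def det (a b : ℝ × ℝ) : ℝ := a.1 * b.2 - a.2 * b.1

/-- The number of `(m, n) ∈ ℤ²` with `m a + n b ∈ c + R · D`, where `D = {p | p.1 cos t + p.2 sin t ≤ H t for all t}`. -/
noncomputable def latticeCount (a b : ℝ × ℝ) (H : ℝ → ℝ) (c : ℝ × ℝ) (R : ℝ) : ℝ :=
  (Nat.card {k : ℤ × ℤ // ∀ t : ℝ, ((k.1 : ℝ) * a.1 + (k.2 : ℝ) * b.1 - c.1) * cos t +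
    ((k.1 : ℝ) * a.2 + (k.2 : ℝ) * b.2 - c.2) * sin t ≤ R * H t} : ℝ)

/-- The area of `D`. -/
noncomputable def area (H : ℝ → ℝ) : ℝ :=
  (volume {p : ℝ × ℝ | ∀ t : ℝ, p.1 * cos t + p.2 * sin t ≤ H t}).toReal

/-- The error: the number of points of the lattice `ℤ a + ℤ b` in `c + R · D` minus `area(D) R² / |det(a, b)|`. -/
noncomputable def error (a b : ℝ × ℝ) (H : ℝ → ℝ) (c : ℝ × ℝ) (R : ℝ) : ℝ :=
  latticeCount a b H c R - area H * R ^ 2 / abs (det a b)

/-- For every oval `D` with support function `H` of class `C⁵`, for almost every pair `(a, b)` of vectors of the plane: `a`, `b` are linearly independent; for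
every `ε > 0` there is `C` such that for all `R ≥ 1` and all centres `c` the error is at most `C R^(5/9 + ε)`; for every `ε > 0` there is `C` such that for
all `X ≥ 1` the integral over `1 ≤ R ≤ X` of the twentieth power of the supremum of the error over all centres is at most `C X^(11 + ε)`; and, if `0` lies in
the interior of `D`, then for almost every centre `c`: for every `ε > 0` there is `C` such that for all `R ≥ 1` the error is at most `C R^(6/11 + ε)`, and for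
every `ε > 0` there is `C` such that for all `X ≥ 1` the integral over `1 ≤ R ≤ X` of the twenty-fourth power of the error is at most `C X^(13 + ε)`. -/
theorem result : ∀ H : ℝ → ℝ, IsSupport H → ∀ᵐ ab : (ℝ × ℝ) × (ℝ × ℝ), det ab.1 ab.2 ≠ 0 ∧
    (∀ ε : ℝ, 0 < ε → ∃ C : ℝ, ∀ R : ℝ, 1 ≤ R → ∀ c : ℝ × ℝ, |error ab.1 ab.2 H c R| ≤ C * R ^ (5 / 9 + ε)) ∧
    (∀ ε : ℝ, 0 < ε → ∃ C : ℝ, ∀ X : ℝ, 1 ≤ X →
      ∫⁻ R in Set.Icc 1 X, (⨆ c : ℝ × ℝ, ENNReal.ofReal |error ab.1 ab.2 H c R|) ^ 20 ≤ ENNReal.ofReal (C * X ^ (11 + ε))) ∧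
    ((∀ t, 0 < H t) → ∀ᵐ c : ℝ × ℝ,
      (∀ ε : ℝ, 0 < ε → ∃ C : ℝ, ∀ R : ℝ, 1 ≤ R → |error ab.1 ab.2 H c R| ≤ C * R ^ (6 / 11 + ε)) ∧
      ∀ ε : ℝ, 0 < ε → ∃ C : ℝ, ∀ X : ℝ, 1 ≤ X →
        ∫⁻ R in Set.Icc 1 X, ENNReal.ofReal (|error ab.1 ab.2 H c R| ^ 24) ≤ ENNReal.ofReal (C * X ^ (13 + ε))) := by
  intro H hH
  by_cases hpos : ∀ t, 0 < H t
  · filter_upwards [Pool.Agent.Helper92.LA.lattice_both20 hH.1 hH.2.1 hH.2.2,
      Pool.Agent.Helper92.LB.lattice_centre hH.1 hH.2.1 hH.2.2 hpos] with ab h1 h2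
    exact ⟨h1.1, h1.2.1, h1.2.2, fun _ => h2.2⟩
  · filter_upwards [Pool.Agent.Helper92.LA.lattice_both20 hH.1 hH.2.1 hH.2.2] with ab h1
    exact ⟨h1.1, h1.2.1, h1.2.2, fun h => absurd h hpos⟩

end Pool.Agent.Helper92.Keep.AlmostEveryLattice3
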