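import Pool.Agent.Helper92.CX.Best

/-!
# A new exponent in the Gauss circle problem

For every `ε > 0`, all radii `R ≥ 1` and all centres `c`: the number of integer points in the closed disc with centre `c` and radius `R` is
`π R² + O(R^(263/421 + ε))`, uniformly in `c`.
-/

open Real

set_option autoImplicit false

namespace Pool.Agent.Helper92.Keep.CircleProblem263

/-- the number of integer points in the closed disc with centre `c` and radius `R` -/
noncomputable def latticeCount (c : ℝ × ℝ) (R : ℝ) : ℕ :=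
  Nat.card {k : ℤ × ℤ // ((k.1 : ℝ) - c.1) ^ 2 + ((k.2 : ℝ) - c.2) ^ 2 ≤ R ^ 2}

theorem result : ∀ ε : ℝ, 0 < ε → ∃ C : ℝ, ∀ R : ℝ, 1 ≤ R → ∀ c : ℝ × ℝ,
    |(latticeCount c R : ℝ) - π * R ^ 2| ≤ C * R ^ (263 / 421 + ε : ℝ) := by
  intro ε hε
  obtain ⟨C, hC⟩ := Pool.Agent.Helper92.CX.main hε
  exact ⟨C, hC⟩

end Pool.Agent.Helper92.Keep.CircleProblem263
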