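import Mathlib
import Pool.Agent.Helper36.EL.Last
import Pool.Agent.Helper22.D3.Fin38
import Pool.Agent.Helper22.OV.Shift
import Pool.Agent.Helper42.CP.Ten
import Pool.Agent.Helper42.CP.Worst
import Pool.Agent.Helper92.CP.One

/-!
# The circle problem for every smooth oval and every centre: exponent `38/61 + ε`, and `61/98 + ε` for discs and ellipses; all `L^p` norms, `0 < p ≤ ∞`
-/

set_option autoImplicit false
open MeasureTheory Real

namespace Pool.Agent.Helper92.Keep.CircleProblem_v39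

/-- `H` is the support function of a convex domain with boundary of class `C⁷` and positive radius of curvature `H + H''`. -/
def IsSupport (H : ℝ → ℝ) : Prop :=
  ContDiff ℝ 7 H ∧ Function.Periodic H (2 * π) ∧ ∀ t, 0 < H t + deriv (deriv H) t

/-- `H` is the support function of the ellipse `{p + x u + y v | x² + y² ≤ 1}` for some `p`, `u`, `v`, where `u`, `v` are linearly independent. -/
def IsEllipse (H : ℝ → ℝ) : Prop := ∃ u v p : ℝ × ℝ, u.1 * v.2 - u.2 * v.1 ≠ 0 ∧
  ∀ t, H t = √((u.1 * cos t + u.2 * sin t) ^ 2 + (v.1 * cos t + v.2 * sin t) ^ 2) + (p.1 * cos t + p.2 * sin t)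

open Classical in
/-- The exponent for `p = ∞`: `61/98` for ellipses (so for discs), `38/61` for all other ovals. -/
noncomputable def expo (H : ℝ → ℝ) : ℝ := if IsEllipse H then 61 / 98 else 38 / 61

open Classical in
/-- The order up to which the exponent is `1/2`: `10` for the unit disc `H = 1` and a single centre, `8` otherwise (`A` is the set of the centres). -/
noncomputable def order (H : ℝ → ℝ) (A : Set (ℝ × ℝ)) : ℝ := if (∀ t, H t = 1) ∧ A.Subsingleton then 10 else 8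

/-- The exponent for `0 < p ≤ ∞`: `1/2` for `p ≤ order H A`, then `1/2 + (expo H - 1/2) (1 - order H A / p)`, and `expo H` for `p = ∞` (where `p.toReal = 0` and
`x / 0 = 0`). -/
noncomputable def expoLp (H : ℝ → ℝ) (A : Set (ℝ × ℝ)) (p : ENNReal) : ℝ := 1 / 2 + (expo H - 1 / 2) * max 0 (1 - order H A / p.toReal)

/-- The norm of `f` in `L^p[X, 2X]`, `0 < p ≤ ∞`; for `p = ∞` the supremum of `f R` over all `R ∈ [X, 2X]`. (`∫⁻` is the Lebesgue integral of a function with
values in `[0, ∞]`.) -/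
noncomputable def lpNorm (p : ENNReal) (X : ℝ) (f : ℝ → ENNReal) : ENNReal :=
  if p = ⊤ then ⨆ R ∈ Set.Icc X (2 * X), f R else (∫⁻ R in Set.Icc X (2 * X), f R ^ p.toReal) ^ (1 / p.toReal)

/-- The number of integer points in `c + R · D`, where `D = {p | p.1 cos t + p.2 sin t ≤ H t for all t}`. -/
noncomputable def latticeCount (H : ℝ → ℝ) (c : ℝ × ℝ) (R : ℝ) : ℝ :=
  (Nat.card {k : ℤ × ℤ // ∀ t : ℝ, ((k.1 : ℝ) - c.1) * cos t + ((k.2 : ℝ) - c.2) * sin t ≤ R * H t} : ℝ)

/-- The area of `D`. -/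
noncomputable def area (H : ℝ → ℝ) : ℝ :=
  (volume {p : ℝ × ℝ | ∀ t : ℝ, p.1 * cos t + p.2 * sin t ≤ H t}).toReal

/-- The unit disc: `H = 1`. -/
theorem isEllipse_disc : IsEllipse (fun _ => 1) := by
  refine ⟨(1, 0), (0, 1), (0, 0), by norm_num, fun t => ?_⟩
  simp

/-- The bound for all radii and all centres. -/
theorem pointwise : ∀ H : ℝ → ℝ, IsSupport H → ∀ ε : ℝ, 0 < ε →
    ∃ C : ℝ, ∀ R : ℝ, 1 ≤ R → ∀ c : ℝ × ℝ, |latticeCount H c R - area H * R ^ 2| ≤ C * R ^ (expo H + ε) := by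
  intro H hH ε hε
  obtain ⟨h7, hp, hr⟩ := hH
  by_cases he : IsEllipse H
  · have h1 : expo H = 61 / 98 := if_pos he
    rw [h1]
    obtain ⟨u, v, p, huv, hH⟩ := he
    have hdet : (⟨u.1, v.1⟩ : ℂ).re * (⟨u.2, v.2⟩ : ℂ).im - (⟨u.1, v.1⟩ : ℂ).im * (⟨u.2, v.2⟩ : ℂ).re ≠ 0 := by
      intro h
      apply huv
      simp only at h
      linarith
    have e : Pool.Agent.Helper22.OV.shf (Pool.Agent.Helper36.EL.ellH ⟨u.1, v.1⟩ ⟨u.2, v.2⟩) p = H := by
      funext t
      unfold Pool.Agent.Helper22.OV.shf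
      rw [Pool.Agent.Helper36.EL.ellH_eq, hH t]
      simp only
      congr 2
      ring
    obtain ⟨C, hC⟩ := Pool.Agent.Helper36.EL.ell_main hdet hε
    refine ⟨C, fun R hR c => ?_⟩
    have h := hC R hR (c.1 + R * p.1, c.2 + R * p.2)
    rw [← Pool.Agent.Helper22.OV.cntc_shf _ p, ← Pool.Agent.Helper22.OV.area_shf _ p, e] at h
    simp only [add_sub_cancel_right] at h
    exact h
  · have h1 : expo H = 38 / 61 := if_neg he
    rw [h1]
    have h2 : ContDiff ℝ 2 H := h7.of_le (by norm_num)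
    obtain ⟨v, hv⟩ := Pool.Agent.Helper22.OV.exists_shift h2 hp hr
    obtain ⟨C, hC⟩ := Pool.Agent.Helper22.D3.main38 (Pool.Agent.Helper92.DT.wp4 fun e he B => Pool.Agent.Helper76.MM.M12 he B)
      hv (Pool.Agent.Helper22.OV.shf_smooth v h7) hε
    refine ⟨C, fun R hR c => ?_⟩
    have h := hC R hR (c.1 - R * v.1, c.2 - R * v.2)
    rw [Pool.Agent.Helper22.OV.cntc_shf, Pool.Agent.Helper22.OV.area_shf] at h
    exact h

theorem half_le_expo (H : ℝ → ℝ) : 1 / 2 ≤ expo H := by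
  unfold expo
  split_ifs <;> norm_num

/-- Let `D` be an oval with support function `H` of class `C⁷`, let `E_c(R)` be the number of integer points in `c + R · D` minus the area of `R · D`, and let
`0 < p ≤ ∞` and `ε > 0`. There is `C` such that for all `X ≥ 1` and all sets `A` of centres the function `sup_{c ∈ A} |E_c(R)|` of `R` has the norm at most
`C X^(1/p + e(p) + ε)` in `L^p[X, 2X]`. Here `e(∞) = e = 61/98` if `D` is an ellipse (for example a disc), `e = 38/61` otherwise, and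
`e(p) = 1/2 + (e - 1/2) max(0, 1 - P/p)` with `P = 8`, and `P = 10` for the unit disc and one centre, `A = {c}`. So the exponent is `1/2` for `p ≤ 8` at the worst centre
(`A = ℝ²`) of every oval; for `p = ∞` this is the bound `|E_c(R)| ≤ C' R^(e + ε)` for all radii `R ≥ 1` and all centres `c` (`pointwise` above). -/
theorem result : ∀ H : ℝ → ℝ, IsSupport H → ∀ p : ENNReal, 0 < p → ∀ ε : ℝ, 0 < ε →
    ∃ C : ℝ, ∀ X : ℝ, 1 ≤ X → ∀ A : Set (ℝ × ℝ),
      lpNorm p X (fun R => ⨆ c ∈ A, ENNReal.ofReal |latticeCount H c R - area H * R ^ 2|) ≤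
        ENNReal.ofReal (C * X ^ (1 / p.toReal + expoLp H A p + ε)) := by
  intro H hH p hp ε hε
  have h0 : (0 : ℝ) ≤ expo H := le_trans (by norm_num) (half_le_expo H)
  have hex : ∀ P q : ℝ, Pool.Agent.Helper42.CP.ex (expo H) P (1 / q) = 1 / 2 + (expo H - 1 / 2) * max 0 (1 - P / q) := fun P q => by
    unfold Pool.Agent.Helper42.CP.ex
    rw [mul_one_div]
  refine Pool.Agent.Helper92.CP.one (E := fun c R => |latticeCount H c R - area H * R ^ 2|) (fun _ _ => abs_nonneg _) h0 (∀ t, H t = 1)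
    (pointwise H hH) (fun q hq δ hδ => ?_) (fun h1 q hq δ hδ => ?_) (P := order H) (fun A => ?_) hp hε
  · obtain ⟨C, hC⟩ := Pool.Agent.Helper42.CP.worst_all (hH.1.of_le (by norm_num)) hH.2.1 hH.2.2 h0 (pointwise H hH) hq hδ
    refine ⟨C, fun X hX => ?_⟩
    have h2 := hC X hX
    rw [hex] at h2
    exact h2
  · obtain rfl : H = fun _ => 1 := funext h1
    have he : expo (fun _ => 1) = 61 / 98 := if_pos isEllipse_disc
    obtain ⟨C, hC⟩ := Pool.Agent.Helper42.CP.disc_all (κ := expo (fun _ => 1)) (half_le_expo _) (by rw [he]; norm_num) (pointwise _ hH) hq hδ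
    refine ⟨C, fun X hX c => ?_⟩
    have h2 := hC X hX c
    rw [hex] at h2
    exact h2
  · unfold order
    by_cases h : (∀ t, H t = 1) ∧ A.Subsingleton
    · exact Or.inr ⟨h.1, h.2, if_pos h⟩
    · exact Or.inl (if_neg h)

/-- The case `H = 1` in coordinates: the number of integer points in the closed disc with centre `c` and radius `R` is `π R² + O(R^(61/98 + ε))`,
uniformly in `c`. -/
theorem disc : ∀ ε : ℝ, 0 < ε → ∃ C : ℝ, ∀ R : ℝ, 1 ≤ R → ∀ c : ℝ × ℝ,
    |(Nat.card {k : ℤ × ℤ // ((k.1 : ℝ) - c.1) ^ 2 + ((k.2 : ℝ) - c.2) ^ 2 ≤ R ^ 2} : ℝ) - π * R ^ 2| ≤ C * R ^ (61 / 98 + ε : ℝ) := by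
  intro ε hε
  have hs : IsSupport (fun _ => 1) := ⟨contDiff_const, fun _ => rfl, fun t => by simp⟩
  obtain ⟨C, hC⟩ := pointwise (fun _ => 1) hs ε hε
  refine ⟨C, fun R hR c => ?_⟩
  have h := hC R hR c
  have h1 : expo (fun _ => 1) = 61 / 98 := if_pos isEllipse_disc
  have h2 : area (fun _ => 1) = π := Pool.Agent.Helper92.GC.area_one
  have h3 : latticeCount (fun _ => 1) c R = (Nat.card {k : ℤ × ℤ // ((k.1 : ℝ) - c.1) ^ 2 + ((k.2 : ℝ) - c.2) ^ 2 ≤ R ^ 2} : ℝ) :=
    (Pool.Agent.Helper92.GC.dcnt_eq (by linarith) c).symm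
  rw [h1, h2, h3] at h
  exact h

end Pool.Agent.Helper92.Keep.CircleProblem_v39
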