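import Mathlib
import Pool.Agent.Helper76.EO.Fin

set_option autoImplicit false
open MeasureTheory Real unitInterval

namespace Pool.Agent.Results.MP_fb29e9_nt.ExactOrder

/-- The number of integer points in `R · D`, where `D = {p | p.1 cos t + p.2 sin t ≤ H t for all t}`. -/
noncomputable def latticeCount (H : ℝ → ℝ) (R : ℝ) : ℝ :=
  (Nat.card {k : ℤ × ℤ // ∀ t : ℝ, (k.1 : ℝ) * cos t + (k.2 : ℝ) * sin t ≤ R * H t} : ℝ)

/-- The area of `D`. -/
noncomputable def area (H : ℝ → ℝ) : ℝ :=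
  (volume {p : ℝ × ℝ | ∀ t : ℝ, p.1 * cos t + p.2 * sin t ≤ H t}).toReal

/-- `H` is a `C²` support function, with positive radius of curvature `H + H''`, and `0` lies inside `D`. -/
def IsSupport (H : ℝ → ℝ) : Prop :=
  ContDiff ℝ 2 H ∧ Function.Periodic H (2 * π) ∧ ∀ t, 0 < H t ∧ 0 < H t + deriv (deriv H) t

/-- The lattice point error. -/
noncomputable def err (H : ℝ → ℝ) (R : ℝ) : ℝ := latticeCount H R - area H * R ^ 2

/-- The order `R^(1/2) (log R)^(1/4)`. -/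
noncomputable def g (R : ℝ) : ℝ := R ^ (1 / 2 : ℝ) * (log R) ^ (1 / 4 : ℝ)

/-- The error is `O(g)`, and both `Ω₊(g)` and `Ω₋(g)`. -/
def ExactOrder (H : ℝ → ℝ) : Prop :=
  (∃ C : ℝ, ∀ R : ℝ, 2 ≤ R → |err H R| ≤ C * g R) ∧
    (∃ c : ℝ, 0 < c ∧ ∀ R₀ : ℝ, ∃ R : ℝ, R₀ ≤ R ∧ c * g R ≤ err H R) ∧
      ∃ c : ℝ, 0 < c ∧ ∀ R₀ : ℝ, ∃ R : ℝ, R₀ ≤ R ∧ err H R ≤ -(c * g R)

/-- For all `k` and `κ > 0` there is a series of `C^∞` functions `f n`, all derivatives of which are absolutely summable and the derivatives of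
order at most `k` have absolute sum at most `κ`, such that for every `C²` periodic function `H₀` and independent coefficients `2 x n - 1`
uniform in `[-1, 1]`, almost surely: if `H = H₀ + ∑ (2 x n - 1) f n` is a support function then the lattice error of its domain has exact
order `R^(1/2) (log R)^(1/4)` in both directions. -/
theorem result : ∀ (k : ℕ) (κ : ℝ), 0 < κ → ∃ f : ℕ → ℝ → ℝ,
    (∀ n, ContDiff ℝ (⊤ : ℕ∞) (f n) ∧ Function.Periodic (f n) (2 * π)) ∧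
    (∀ j : ℕ, ∃ M : ℕ → ℝ, Summable M ∧ ∀ n t, |iteratedDeriv j (f n) t| ≤ M n) ∧
    (∀ j ≤ k, ∀ t, ∑' n, |iteratedDeriv j (f n) t| ≤ κ) ∧
    ∀ H₀ : ℝ → ℝ, ContDiff ℝ 2 H₀ → Function.Periodic H₀ (2 * π) →
      ∀ᵐ x ∂(Measure.infinitePi fun _ : ℕ => (volume : Measure I)),
        ∀ H : ℝ → ℝ, (∀ t, H t = H₀ t + ∑' n, (2 * (x n : ℝ) - 1) * f n t) → IsSupport H → ExactOrder H := by
  intro k κ hκ
  obtain ⟨f, h1, h2, h3, h4⟩ := Pool.Agent.Helper76.EO.final_series k hκ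
  refine ⟨f, h1, h2, h3, fun H₀ h0 hp => ?_⟩
  filter_upwards [h4 H₀ h0 hp] with x hx
  intro H hH hS
  obtain ⟨a, b, c⟩ := hx H hH ⟨hS.1, hS.2.1, fun t => (hS.2.2 t).1, fun t => (hS.2.2 t).2⟩
  exact ⟨a, c, b⟩

end Pool.Agent.Results.MP_fb29e9_nt.ExactOrder
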