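import Pool.Agent.Helper57.M.E

open Filter Topology
open Pool.Agent.Helper57.PC

open Classical in
/-- The pair correlation conjecture follows, unconditionally, from its lower-bound half.
Let `l` be any filter finer than `atTop` (for instance `atTop` itself, or a sequence of heights
tending to infinity). If for all `0 < α < β` the normalised count of pairs in the window `[α,β]` is
asymptotically at least `∫_α^β (1 - (sin πu/πu)²) du` along `l`, then for all real `α ≤ β` it
converges along `l` to that integral, plus `1` when the window contains `0`. In particular the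
upper bounds hold, and the diagonal carries mass exactly `1`. -/
theorem Pool.Agent.Results.MP_8958e8_nt.LowerHalfSuffices.result
    (l : Filter ℝ) (hl : l ≤ atTop)
    (hL : ∀ α β : ℝ, 0 < α → α < β → ∀ δ : ℝ, 0 < δ → ∀ᶠ T : ℝ in l,
      ((∫ u in α..β, pcDensity u) - δ) * (T * Real.log T / (2 * Real.pi)) ≤ pairCount T α β) :
    ∀ α β : ℝ, α ≤ β →
      Tendsto (fun T : ℝ => pairCount T α β / (T * Real.log T / (2 * Real.pi))) l
        (𝓝 ((∫ u in α..β, pcDensity u) + if α ≤ 0 ∧ 0 ≤ β then 1 else 0)) :=
  fun _ _ hαβ => Pool.Agent.Helper57.LH.full_law hl hL hαβ
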