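import Pool.Agent.Helper92.RG.Main
import Pool.Agent.Helper92.RG.Conv
import Pool.Agent.Helper92.RG.CumMain

open Filter Topology
open Pool.Agent.Helper57.PC
open scoped ENNReal

namespace Pool.Agent.Results.MP_8958e8_nt.Rigidity

/-- `N(T;α,β)` for the zeros on the critical line only: the number of ordered pairs of zeros on the line
with ordinates in `[0,T]`, counted with multiplicity, whose normalised difference lies in `[α,β]`. -/
noncomputable def critPairs (T α β : ℝ) : ℝ :=
  ∑ᶠ p ∈ {p : ℂ × ℂ | p.1 ∈ zerosUpTo T ∧ p.2 ∈ zerosUpTo T ∧ p.1.re = 1 / 2 ∧ p.2.re = 1 / 2 ∧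
    (p.1.im - p.2.im) * Real.log T / (2 * Real.pi) ∈ Set.Icc α β}, ((mult p.1 : ℝ) * (mult p.2 : ℝ))

/-- The number of zeros on the critical line with ordinate in `[0,T]`, counted with multiplicity. -/
noncomputable def critZeros (T : ℝ) : ℝ := ∑ᶠ ρ ∈ {ρ : ℂ | ρ ∈ zerosUpTo T ∧ ρ.re = 1 / 2}, (mult ρ : ℝ)

/-- Asymptotic lower bound along `l` for the count `N` in the window `[α,β]`, with density
`1 - (sin πu/πu)² - E(u)`. -/
def Lower (l : Filter ℝ) (N : ℝ → ℝ → ℝ → ℝ) (E : ℝ → ℝ) (α β : ℝ) : Prop :=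
  ∀ δ : ℝ, 0 < δ → ∀ᶠ T : ℝ in l,
    ((∫ u in α..β, (pcDensity u - E u)) - δ) * (T * Real.log T / (2 * Real.pi)) ≤ N T α β

/-- Asymptotic upper bound along `l` for the count `N` in the window `[α,β]`, with density
`1 - (sin πu/πu)² + E(u)`. -/
def Upper (l : Filter ℝ) (N : ℝ → ℝ → ℝ → ℝ) (E : ℝ → ℝ) (α β : ℝ) : Prop :=
  ∀ δ : ℝ, 0 < δ → ∀ᶠ T : ℝ in l,
    N T α β ≤ ((∫ u in α..β, (pcDensity u + E u)) + δ) * (T * Real.log T / (2 * Real.pi))

/-- The conjecture along `l`: the law for the windows `0 < α < β`. -/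
def PairLaw (l : Filter ℝ) : Prop := ∀ α β : ℝ, 0 < α → α < β →
  Tendsto (fun T : ℝ => pairCount T α β / (T * Real.log T / (2 * Real.pi))) l (𝓝 (∫ u in α..β, pcDensity u))

open Classical in
/-- The law along `l` for all windows, with a mass `1` at the origin. -/
def FullLaw (l : Filter ℝ) : Prop := ∀ α β : ℝ, α ≤ β →
  Tendsto (fun T : ℝ => pairCount T α β / (T * Real.log T / (2 * Real.pi))) l
    (𝓝 ((∫ u in α..β, pcDensity u) + if α ≤ 0 ∧ 0 ≤ β then 1 else 0))

/-- The upper bounds for the symmetric windows: for every `β > 0` at most the predicted number of pairs of zeros (equal zeros included)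
is at normalised distance at most `β`. -/
def SymmetricUpper (l : Filter ℝ) : Prop := ∀ β : ℝ, 0 < β → ∀ δ : ℝ, 0 < δ → ∀ᶠ T : ℝ in l,
  pairCount T (-β) β ≤ (1 + (∫ u in (-β)..β, pcDensity u) + δ) * (T * Real.log T / (2 * Real.pi))

/-- The lower bounds for the symmetric windows. -/
def SymmetricLower (l : Filter ℝ) : Prop := ∀ β : ℝ, 0 < β → ∀ δ : ℝ, 0 < δ → ∀ᶠ T : ℝ in l,
  (1 + (∫ u in (-β)..β, pcDensity u) - δ) * (T * Real.log T / (2 * Real.pi)) ≤ pairCount T (-β) β

/-- One sign change: for some `x₀ ∈ [0,∞]` the lower bounds hold for the windows inside `(0,x₀]` and the upper bounds for the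
windows inside `[x₀,∞)`. -/
def OneSignChange (l : Filter ℝ) : Prop := ∃ x₀ : ℝ≥0∞,
  (∀ α β : ℝ, 0 < α → α < β → ENNReal.ofReal β ≤ x₀ → Lower l pairCount (fun _ => 0) α β) ∧
  (∀ α β : ℝ, 0 < α → α < β → x₀ ≤ ENNReal.ofReal α → Upper l pairCount (fun _ => 0) α β)

/-- The lower bounds for the pairs of zeros on the line, up to an exponentially decaying density. -/
def CriticalLower (l : Filter ℝ) : Prop := ∃ C c : ℝ, 0 < c ∧
  ∀ α β : ℝ, 0 < α → α < β → Lower l critPairs (fun u => C * Real.exp (-c * u)) α β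

/-- Almost all zeros are on the line, and for some nonzero polynomial `P` the lower bounds hold in the windows where `P(u²) < 0` and the upper
bounds in the windows where `P(u²) > 0`, both up to an exponentially decaying density. -/
def FinitelyManySignChanges (l : Filter ℝ) : Prop :=
  Tendsto (fun T : ℝ => critZeros T / (T * Real.log T / (2 * Real.pi))) l (𝓝 1) ∧
  ∃ C c : ℝ, 0 < c ∧ ∃ P : Polynomial ℝ, P ≠ 0 ∧
    (∀ α β : ℝ, 0 < α → α < β → (∀ u ∈ Set.Icc α β, P.eval (u ^ 2) < 0) →
      Lower l pairCount (fun u => C * Real.exp (-c * u)) α β) ∧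
    (∀ α β : ℝ, 0 < α → α < β → (∀ u ∈ Set.Icc α β, 0 < P.eval (u ^ 2)) →
      Upper l pairCount (fun u => C * Real.exp (-c * u)) α β)

/-- Rigidity of the pair correlation: for every filter `l` finer than `atTop` (`atTop` itself, or a sequence of heights tending to
infinity) the conjecture is equivalent to its law for all windows, to the upper bounds for the symmetric windows, to the lower
bounds for the symmetric windows, to one-sided bounds with at most one sign change, to one-sided
bounds for the zeros on the line with exponentially decaying errors, and to one-sided bounds with finitely many sign changes and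
exponentially decaying errors together with almost all zeros on the line. -/
theorem result (l : Filter ℝ) (hl : l ≤ atTop) :
    List.TFAE [PairLaw l, FullLaw l, SymmetricUpper l, SymmetricLower l, OneSignChange l, CriticalLower l,
      FinitelyManySignChanges l] := by
  have hSN : ∀ T : ℝ, 1 < T → 0 < T * Real.log T / (2 * Real.pi) := fun T hT => Pool.Agent.Helper57.PC.SN_pos hT
  have hlow : PairLaw l → ∀ α β : ℝ, 0 < α → α < β → Lower l pairCount (fun _ => 0) α β := by
    intro h α β hα hαβ δ hδ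
    filter_upwards [(h α β hα hαβ).eventually (lt_mem_nhds (sub_lt_self _ hδ)), hl (eventually_gt_atTop 1)] with T hT hT1
    simp only [sub_zero]
    exact ((lt_div_iff₀ (hSN T hT1)).mp hT).le
  tfae_have 2 → 1 := by
    intro h α β hα hαβ
    have h1 := h α β hαβ.le
    rwa [if_neg (fun hh => absurd hh.1 (not_le.mpr hα)), add_zero] at h1
  tfae_have 1 → 5 := by
    intro h
    refine ⟨⊤, fun α β hα hαβ _ => hlow h α β hα hαβ, ?_⟩
    intro α β hα hαβ htop
    simp at htop
  tfae_have 5 → 2 := by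
    rintro ⟨x₀, hlo, hup⟩
    refine Pool.Agent.Helper92.RG.clause_one hl x₀ ?_ ?_
    · intro α β hα hαβ hβ δ hδ
      simpa [Lower] using hlo α β hα hαβ hβ δ hδ
    · intro α β hα hαβ hβ δ hδ
      simpa [Upper] using hup α β hα hαβ hβ δ hδ
  tfae_have 6 → 2 := by
    rintro ⟨C, c, hc, h⟩
    exact Pool.Agent.Helper92.RG.clause_two hl hc h
  tfae_have 7 → 2 := by
    rintro ⟨hcrit, C, c, hc, P, hP, hlo, hup⟩
    exact Pool.Agent.Helper92.RG.clause_three hl hcrit P hP hc hlo hup
  tfae_have 2 → 6 := by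
    intro h
    refine ⟨0, 1, one_pos, fun α β hα hαβ δ hδ => ?_⟩
    have h1 := Pool.Agent.Helper92.RG.crit_of_law hl h hα hαβ hδ
    simp only [zero_mul, sub_zero]
    exact h1
  tfae_have 2 → 7 := by
    intro h
    have h0 := h 0 0 le_rfl
    simp only [intervalIntegral.integral_same, le_refl, and_self, if_true, zero_add] at h0
    refine ⟨Pool.Agent.Helper92.RG.crit_of_nl hl (Pool.Agent.Helper92.RG.nl_of_law hl h0), 0, 1, one_pos,
      Polynomial.C (-1), by simp, ?_, ?_⟩
    · intro α β hα hαβ _ δ hδ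
      have h1 := hlow (tfae_2_to_1 h) α β hα hαβ δ hδ
      simpa [Lower] using h1
    · intro α β hα hαβ hs
      have := hs α ⟨le_rfl, hαβ.le⟩
      simp at this
      linarith
  have hsym : FullLaw l → ∀ β : ℝ, 0 < β →
      Tendsto (fun T : ℝ => pairCount T (-β) β / (T * Real.log T / (2 * Real.pi))) l (𝓝 (1 + ∫ u in (-β)..β, pcDensity u)) := by
    intro h β hβ
    have h1 := h (-β) β (by linarith)
    rwa [if_pos ⟨by linarith, hβ.le⟩, add_comm] at h1
  tfae_have 2 → 3 := by
    intro h β hβ δ hδ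
    filter_upwards [(hsym h β hβ).eventually (gt_mem_nhds (lt_add_of_pos_right _ hδ)), hl (eventually_gt_atTop 1)] with T hT hT1
    exact ((div_lt_iff₀ (hSN T hT1)).mp hT).le
  tfae_have 2 → 4 := by
    intro h β hβ δ hδ
    filter_upwards [(hsym h β hβ).eventually (lt_mem_nhds (sub_lt_self _ hδ)), hl (eventually_gt_atTop 1)] with T hT hT1
    exact ((lt_div_iff₀ (hSN T hT1)).mp hT).le
  tfae_have 3 → 2 := fun h => Pool.Agent.Helper92.RG.clause_cum hl (Or.inr h)
  tfae_have 4 → 2 := fun h => Pool.Agent.Helper92.RG.clause_cum hl (Or.inl h)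
  tfae_finish

end Pool.Agent.Results.MP_8958e8_nt.Rigidity
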