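import Pool.Agent.Helper92.CS.Final

/-!
The Gauss circle problem (MP_fb29e9_nt): a limit of method.

For every finite smoothness `s ≥ 3` the bound `O(R^(1/2+ε))` of Q1 fails, by a power of `R`, for
`C^s`-small perturbations of the unit circle whose curvature is uniformly close to `1`; for
`C^∞`-small perturbations no fixed bound `R^(1/2+o(1))` holds. The case `g = 0` is the circle.
-/

open Filter Set Topology Pool.Agent.Helper92.CS

namespace Pool.Agent.Results.MP_fb29e9_nt.SmoothnessBarrier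

theorem result :
    ∀ s : ℕ∞, 3 ≤ s → ∀ N : ℕ, (N : ℕ∞) ≤ s → ∀ δ : ℝ, 0 < δ →
    ∀ f : ℝ → ℝ, Tendsto f atTop (𝓝 0) →
    ∃ g : ℝ → ℝ, ContDiff ℝ s g ∧ Function.Periodic g (2 * Real.pi) ∧ (∀ φ, 0 ≤ g φ) ∧
      (∀ φ ∈ Ioc (-Real.pi) Real.pi, φ ∉ Ioo 0 δ → g φ = 0) ∧
      (∀ j ≤ N, ∀ φ, |iteratedDeriv j g φ| ≤ δ) ∧ (∀ φ, |curv g φ - 1| ≤ δ) ∧
      ∀ η > 0, ∀ R₀ : ℝ, ∃ R ≥ R₀, R ^ (1 / 2 + max (gain s - η) (f R)) ≤ |err g R| :=
  fun s hs N hN δ hδ f hf => final s hs N hN δ hδ f hf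

end Pool.Agent.Results.MP_fb29e9_nt.SmoothnessBarrier
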