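import Pool.Agent.Helper92.TP.Barrier

open Pool.Agent.Helper92.LP Pool.Agent.Helper92.TP

namespace Pool.Agent.Helper92.Keep.ThreePointBarrierKeep

/-- The Gegenbauer (ultraspherical) polynomials of the sphere `S^(d-1)`, with the normalisation
`gegen d k 1 = 1`, given by their three term recurrence. -/
noncomputable def gegen (d : ℕ) : ℕ → ℝ → ℝ
  | 0, _ => 1
  | 1, t => t
  | (k + 2), t => ((2 * k + d) * t * gegen d (k + 1) t - (k + 1) * gegen d k t) / (k + d - 1)

/-- The polynomials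
`Q_k(u,v,t) = ((1-u²)(1-v²))^(k/2) P_k((t-uv)/√((1-u²)(1-v²)))` of Bachoc and Vallentin, where
`P_k = gegen (d-1) k` is the Gegenbauer polynomial of `S^(d-2)`, given by the three term recurrence
of `P_k` multiplied by the powers of `(1-u²)(1-v²)`. -/
noncomputable def bvPoly (d : ℕ) : ℕ → ℝ → ℝ → ℝ → ℝ
  | 0, _, _, _ => 1
  | 1, u, v, t => t - u * v
  | (k + 2), u, v, t => ((2 * k + d - 1) * (t - u * v) * bvPoly d (k + 1) u v t
      - (k + 1) * ((1 - u ^ 2) * (1 - v ^ 2)) * bvPoly d k u v t) / (k + d - 2)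

/-- The polynomial `∑_{k<n} ⟨F_k, Y_k(u,v,t)⟩`, where `Y_k(u,v,t)` is the matrix with entries
`u^i v^j Q_k(u,v,t)`. -/
noncomputable def kern (d n : ℕ) (F : Fin n → Matrix (Fin n) (Fin n) ℝ) (u v t : ℝ) : ℝ :=
  ∑ k : Fin n, ∑ i : Fin n, ∑ j : Fin n, F k i j * (u ^ (i : ℕ) * v ^ (j : ℕ)) * bvPoly d k u v t

/-- Symmetrisation over the six permutations of the three variables. -/
noncomputable def symm (f : ℝ → ℝ → ℝ → ℝ) (u v t : ℝ) : ℝ :=
  (f u v t + f u t v + f v u t + f v t u + f t u v + f t v u) / 6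

/-- Feasible solutions of the three-point semidefinite program of Bachoc and Vallentin for the
kissing number in dimension `d` (inner products at most `1/2`). -/
structure IsFeasible (d n : ℕ) (a : ℕ → ℝ) (b : Matrix (Fin 2) (Fin 2) ℝ)
    (F : Fin n → Matrix (Fin n) (Fin n) ℝ) : Prop where
  a_nonneg : ∀ k, 0 ≤ a k
  a_summable : Summable a
  b_psd : b.PosSemidef
  F_psd : ∀ k, (F k).PosSemidef
  pair : ∀ u : ℝ, -1 ≤ u → u ≤ 1 / 2 →
    ∑' k, a k * gegen d (k + 1) u + 2 * b 0 1 + b 1 1 + 3 * symm (kern d n F) u u 1 ≤ -1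
  triple : ∀ u v t : ℝ, -1 ≤ u → u ≤ 1 / 2 → -1 ≤ v → v ≤ 1 / 2 → -1 ≤ t → t ≤ 1 / 2 →
    0 ≤ 1 + 2 * u * v * t - u ^ 2 - v ^ 2 - t ^ 2 → b 1 1 + symm (kern d n F) u v t ≤ 0

/-- The value of a feasible solution, the upper bound for the kissing number that it proves. -/
noncomputable def value (d n : ℕ) (a : ℕ → ℝ) (b : Matrix (Fin 2) (Fin 2) ℝ)
    (F : Fin n → Matrix (Fin n) (Fin n) ℝ) : ℝ :=
  1 + ∑' k, a k + b 0 0 + symm (kern d n F) 1 1 1

lemma gegen_eq (d : ℕ) (hd : 3 ≤ d) (t : ℝ) : ∀ k, gegen d k t = G ((d : ℝ) - 2) t k := by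
  have hd' : (3 : ℝ) ≤ d := by exact_mod_cast hd
  have main : ∀ k, gegen d k t = G ((d : ℝ) - 2) t k ∧
      gegen d (k + 1) t = G ((d : ℝ) - 2) t (k + 1) := by
    intro k
    induction k with
    | zero => exact ⟨by simp [gegen, G], by simp [gegen, G]⟩
    | succ k ih =>
      refine ⟨ih.2, ?_⟩
      have e1 : gegen d (k + 1 + 1) t
          = ((2 * k + d) * t * gegen d (k + 1) t - (k + 1) * gegen d k t) / (k + d - 1) := rfl
      have e2 : G ((d : ℝ) - 2) t (k + 1 + 1)
          = (t * G ((d : ℝ) - 2) t (k + 1) - cB ((d : ℝ) - 2) (k + 1) * G ((d : ℝ) - 2) t k)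
            / cA ((d : ℝ) - 2) (k + 1) := rfl
      rw [e1, e2, ih.1, ih.2]
      have hk : (0 : ℝ) ≤ k := Nat.cast_nonneg k
      unfold cA cB
      push_cast
      have h1 : (k : ℝ) + d - 1 ≠ 0 := by
        have : 0 < (k : ℝ) + d - 1 := by linarith
        exact this.ne'
      have h2 : 2 * ((k : ℝ) + 1) + (d - 2) ≠ 0 := by
        have : 0 < 2 * ((k : ℝ) + 1) + (d - 2) := by linarith
        exact this.ne'
      have h3 : (k : ℝ) + 1 + (d - 2) ≠ 0 := by
        have : 0 < (k : ℝ) + 1 + (d - 2) := by linarith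
        exact this.ne'
      field_simp
      ring
  exact fun k => (main k).1

lemma bvPoly_eq (d : ℕ) (hd : 4 ≤ d) (u v t : ℝ) :
    ∀ k, bvPoly d k u v t = Qh ((d : ℝ) - 2) u v t k := by
  have hd' : (4 : ℝ) ≤ d := by exact_mod_cast hd
  have main : ∀ k, bvPoly d k u v t = Qh ((d : ℝ) - 2) u v t k ∧
      bvPoly d (k + 1) u v t = Qh ((d : ℝ) - 2) u v t (k + 1) := by
    intro k
    induction k with
    | zero => exact ⟨by simp [bvPoly, Qh], by simp [bvPoly, Qh]⟩
    | succ k ih =>
      refine ⟨ih.2, ?_⟩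
      have e1 : bvPoly d (k + 1 + 1) u v t
          = ((2 * k + d - 1) * (t - u * v) * bvPoly d (k + 1) u v t
            - (k + 1) * ((1 - u ^ 2) * (1 - v ^ 2)) * bvPoly d k u v t) / (k + d - 2) := rfl
      have e2 : Qh ((d : ℝ) - 2) u v t (k + 1 + 1)
          = ((t - u * v) * Qh ((d : ℝ) - 2) u v t (k + 1)
            - cB ((d : ℝ) - 2 - 1) (k + 1) * ((1 - u ^ 2) * (1 - v ^ 2))
              * Qh ((d : ℝ) - 2) u v t k) / cA ((d : ℝ) - 2 - 1) (k + 1) := rfl
      rw [e1, e2, ih.1, ih.2]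
      have hk : (0 : ℝ) ≤ k := Nat.cast_nonneg k
      unfold cA cB
      push_cast
      have h1 : (k : ℝ) + d - 2 ≠ 0 := by
        have : 0 < (k : ℝ) + d - 2 := by linarith
        exact this.ne'
      have h2 : 2 * ((k : ℝ) + 1) + (d - 2 - 1) ≠ 0 := by
        have : 0 < 2 * ((k : ℝ) + 1) + ((d : ℝ) - 2 - 1) := by linarith
        exact this.ne'
      have h3 : (k : ℝ) + 1 + (d - 2 - 1) ≠ 0 := by
        have : 0 < (k : ℝ) + 1 + ((d : ℝ) - 2 - 1) := by linarith
        exact this.ne'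
      have h4 : (2 : ℝ) * k + d - 1 ≠ 0 := by
        have : 0 < (2 : ℝ) * k + d - 1 := by linarith
        exact this.ne'
      field_simp
      ring
  exact fun k => (main k).1

lemma gram_nonneg {u v t : ℝ} (hu : u ^ 2 ≤ 1 / 4) (hv : v ^ 2 ≤ 1 / 4) (ht : t ^ 2 ≤ 1 / 4) :
    0 ≤ 1 + 2 * u * v * t - u ^ 2 - v ^ 2 - t ^ 2 := by
  have h1 : |u| ≤ 1 / 2 := abs_le_of_sq_le_sq (by norm_num; linarith) (by norm_num)
  have h2 : |v| ≤ 1 / 2 := abs_le_of_sq_le_sq (by norm_num; linarith) (by norm_num)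
  have h3 : |t| ≤ 1 / 2 := abs_le_of_sq_le_sq (by norm_num; linarith) (by norm_num)
  have h4 : |u * v * t| ≤ 1 / 8 := by
    rw [abs_mul, abs_mul]
    calc |u| * |v| * |t| ≤ (1 / 2) * (1 / 2) * (1 / 2) := by
          apply mul_le_mul (mul_le_mul h1 h2 (abs_nonneg _) (by norm_num)) h3 (abs_nonneg _)
            (by norm_num)
      _ = 1 / 8 := by norm_num
  have h5 := neg_abs_le (u * v * t)
  nlinarith

lemma bounds_of_sq {u : ℝ} (hu : u ^ 2 ≤ 1 / 4) : -1 ≤ u ∧ u ≤ 1 / 2 := by
  have h1 : |u| ≤ 1 / 2 := abs_le_of_sq_le_sq (by norm_num; linarith) (by norm_num)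
  have := abs_le.1 h1
  exact ⟨by linarith [this.1], this.2⟩

/-- **The three-point semidefinite programming bound cannot bound the kissing numbers below
`2^(0.38 d)`.**  In every large dimension `d`, every feasible solution of the Bachoc–Vallentin
three-point program for the kissing number (with polynomials of arbitrary degree) has value at
least `2^(0.38 d)`. -/
theorem result : ∃ d₀ : ℕ, ∀ d : ℕ, d₀ ≤ d → ∀ (n : ℕ) (a : ℕ → ℝ)
    (b : Matrix (Fin 2) (Fin 2) ℝ) (F : Fin n → Matrix (Fin n) (Fin n) ℝ),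
    IsFeasible d n a b F → (2 : ℝ) ^ (0.38 * (d : ℝ)) ≤ value d n a b F := by
  obtain ⟨m₀, hm₀⟩ := dual_measure2
  refine ⟨130 * (m₀ + 1) + 2, fun d hd n a b F hf => ?_⟩
  set m := (d - 2) / 130 with hm
  have hmm : m₀ ≤ m := by omega
  have hd4 : 4 ≤ d := by omega
  have hc : (((d - 2 : ℕ)) : ℝ) = (d : ℝ) - 2 := by
    push_cast [Nat.cast_sub (show 2 ≤ d by omega)]; ring
  have h1 : 130 * (m : ℝ) ≤ (d : ℝ) - 2 := by
    have : 130 * m ≤ d - 2 := by omega
    rw [← hc]; exact_mod_cast this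
  have h2 : (d : ℝ) - 2 ≤ 130 * m + 130 := by
    have : d - 2 ≤ 130 * m + 130 := by omega
    rw [← hc]; exact_mod_cast this
  obtain ⟨w, x, hw, hsum, hg, hdiag, hmom⟩ := hm₀ m hmm ((d : ℝ) - 2) h1 h2
  set D := (d : ℝ) - 2 with hDdef
  have hD : 4 ≤ D := by
    have : 6 ≤ d := by omega
    have : (6 : ℝ) ≤ d := by exact_mod_cast this
    linarith
  have hD2 : 2 ≤ D := by linarith
  set ε := (2 : ℝ) ^ (-(0.38 * (D + 2))) with hε
  have hε0 : 0 < ε := by positivity
  set X := (2 : ℝ) ^ (0.38 * (d : ℝ)) with hX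
  have hX0 : 0 < X := by positivity
  have hXε : X * ε = 1 := by
    rw [hX, hε, ← Real.rpow_add (by norm_num)]
    have : 0.38 * (d : ℝ) + -(0.38 * (D + 2)) = 0 := by rw [hDdef]; ring
    rw [this, Real.rpow_zero]
  have hN : ∀ k, NN D w x 0 k = ∑ i, w i * G D (x i) k := by
    intro k
    simp [NN, G]
  have hmomε : ∀ k : ℕ, 1 ≤ k → |∑ i, w i * G D (x i) k| ≤ ε := by
    intro k hk
    have h := hmom k hk
    rw [hN] at h
    have hk0 : (0 : ℝ) ≤ k := Nat.cast_nonneg k
    have hone : (1 : ℝ) ≤ (8 * ((k : ℝ) + 2) * (k + 1 + D)) * ((k + 1) * (k + 2)) := by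
      have a1 : (1 : ℝ) ≤ 8 * ((k : ℝ) + 2) * (k + 1 + D) := by nlinarith
      have a2 : (1 : ℝ) ≤ ((k : ℝ) + 1) * (k + 2) := by nlinarith
      exact one_le_mul_of_one_le_of_one_le a1 a2
    calc |∑ i, w i * G D (x i) k| = |∑ i, w i * G D (x i) k| * 1 := (mul_one _).symm
      _ ≤ _ := mul_le_mul_of_nonneg_left hone (abs_nonneg _)
      _ ≤ ε := h
  have hGb : ∀ i, ∃ C, ∀ k, |G D (x i) k| ≤ C := by
    intro i
    obtain ⟨C, hC⟩ := G_bound_of_good (hg i)
    refine ⟨|C|, fun k => (hC k).trans ?_⟩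
    have hk0 : (0 : ℝ) ≤ k := Nat.cast_nonneg k
    have hden : (1 : ℝ) ≤ ((k : ℝ) + 1) ^ 4 := one_le_pow₀ (by linarith)
    calc C / ((k : ℝ) + 1) ^ 4 ≤ |C| / ((k : ℝ) + 1) ^ 4 :=
          div_le_div_of_nonneg_right (le_abs_self C) (by positivity)
      _ ≤ |C| := div_le_self (abs_nonneg _) hden
  -- the linear part
  set P1 := ∑ i, w i * ∑' k, a k * gegen d (k + 1) (x i) with hP1
  have hP1ge : -(ε * ∑' k, a k) ≤ P1 := by
    have hsm : ∀ i, Summable (fun k => a k * gegen d (k + 1) (x i)) := by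
      intro i
      obtain ⟨C, hC⟩ := hGb i
      refine Summable.of_norm_bounded (hf.a_summable.mul_right C) (fun k => ?_)
      rw [Real.norm_eq_abs, abs_mul, abs_of_nonneg (hf.a_nonneg k), gegen_eq d (by omega)]
      exact mul_le_mul_of_nonneg_left (hC (k + 1)) (hf.a_nonneg k)
    have e : P1 = ∑' k, a k * ∑ i, w i * G D (x i) (k + 1) := by
      rw [hP1]
      have : ∀ i, w i * ∑' k, a k * gegen d (k + 1) (x i)
          = ∑' k, w i * (a k * gegen d (k + 1) (x i)) := fun i => tsum_mul_left.symm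
      simp only [this]
      rw [← Summable.tsum_finsetSum (fun i _ => (hsm i).mul_left (w i))]
      apply tsum_congr
      intro k
      rw [Finset.mul_sum]
      apply Finset.sum_congr rfl
      intro i _
      rw [gegen_eq d (by omega)]
      ring
    have hs2 : Summable (fun k => a k * ∑ i, w i * G D (x i) (k + 1)) := by
      refine Summable.of_norm_bounded (hf.a_summable.mul_right ε) (fun k => ?_)
      rw [Real.norm_eq_abs, abs_mul, abs_of_nonneg (hf.a_nonneg k)]
      exact mul_le_mul_of_nonneg_left (hmomε (k + 1) (by omega)) (hf.a_nonneg k)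
    rw [e, ← tsum_mul_left, ← tsum_neg]
    refine Summable.tsum_le_tsum (fun k => ?_) ((hf.a_summable.mul_left ε).neg) hs2
    have h3 := neg_abs_le (∑ i, w i * G D (x i) (k + 1))
    have h4 := hmomε (k + 1) (by omega)
    have h5 := hf.a_nonneg k
    nlinarith
  -- summing the pair constraints
  set S1 := ∑ i, w i * symm (kern d n F) (x i) (x i) 1 with hS1
  have hpair : P1 + (2 * b 0 1 + b 1 1) + 3 * S1 ≤ -1 := by
    have h3 : ∑ i, w i * (∑' k, a k * gegen d (k + 1) (x i) + 2 * b 0 1 + b 1 1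
        + 3 * symm (kern d n F) (x i) (x i) 1) ≤ ∑ i, w i * (-1) := by
      apply Finset.sum_le_sum
      intro i _
      obtain ⟨b1, b2⟩ := bounds_of_sq (hg i).quarter
      exact mul_le_mul_of_nonneg_left (hf.pair (x i) b1 b2) (hw i)
    have e1 : ∑ i, w i * (∑' k, a k * gegen d (k + 1) (x i) + 2 * b 0 1 + b 1 1
        + 3 * symm (kern d n F) (x i) (x i) 1)
        = P1 + (2 * b 0 1 + b 1 1) * ∑ i, w i + 3 * S1 := by
      rw [hP1, hS1, Finset.mul_sum, Finset.mul_sum, ← Finset.sum_add_distrib,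
        ← Finset.sum_add_distrib]
      apply Finset.sum_congr rfl
      intro i _
      ring
    rw [e1, ← Finset.sum_mul, hsum] at h3
    linarith
  -- the triple constraints
  set T := fun i j l => w i * w j * w l * FF D (x i) (x j) (x l) 0 with hT
  have hT0 : ∀ i j l, 0 ≤ T i j l := fun i j l =>
    mul_nonneg (mul_nonneg (mul_nonneg (hw i) (hw j)) (hw l))
      (FF_nonneg hD (hg i) (hg j) (hg l))
  have hT12 : ∀ i j l, T j i l = T i j l := by
    intro i j l
    simp only [hT]
    rw [FF_zero_swap12 D (x i) (x j)]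
    ring
  have hT23 : ∀ i j l, T i l j = T i j l := by
    intro i j l
    simp only [hT]
    rw [FF_zero_swap23 D (x i) (x j)]
    ring
  set M3 := ∑ i, ∑ j, ∑ l, T i j l with hM3
  set S3 := ∑ i, ∑ j, ∑ l, T i j l * symm (kern d n F) (x i) (x j) (x l) with hS3
  have htriple : b 1 1 * M3 + S3 ≤ 0 := by
    have : ∑ i, ∑ j, ∑ l, T i j l * (b 1 1 + symm (kern d n F) (x i) (x j) (x l)) ≤ 0 := by
      apply Finset.sum_nonpos
      intro i _
      apply Finset.sum_nonpos
      intro j _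
      apply Finset.sum_nonpos
      intro l _
      obtain ⟨b1, b2⟩ := bounds_of_sq (hg i).quarter
      obtain ⟨b3, b4⟩ := bounds_of_sq (hg j).quarter
      obtain ⟨b5, b6⟩ := bounds_of_sq (hg l).quarter
      exact mul_nonpos_of_nonneg_of_nonpos (hT0 i j l)
        (hf.triple _ _ _ b1 b2 b3 b4 b5 b6
          (gram_nonneg (hg i).quarter (hg j).quarter (hg l).quarter))
    refine le_trans (le_of_eq ?_) this
    rw [hM3, hS3]
    simp only [Finset.mul_sum, ← Finset.sum_add_distrib]
    apply Finset.sum_congr rfl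
    intro i _
    apply Finset.sum_congr rfl
    intro j _
    apply Finset.sum_congr rfl
    intro l _
    ring
  have hmass : 1 - ε ≤ M3 := by
    have h3 := main_form hD2 hw hg hsum hdiag hε0.le hmom (fun _ => 1) 0
    simp only [if_true, mul_one, one_pow, pow_zero, hsum, Qh, one_mul] at h3
    exact h3
  -- the symmetrised sum
  have hsymS3 : S3 = ∑ i, ∑ j, ∑ l, T i j l * kern d n F (x i) (x j) (x l) := by
    have s12 : ∀ f : Fin (10 * m - 1) → Fin (10 * m - 1) → Fin (10 * m - 1) → ℝ,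
        ∑ i, ∑ j, ∑ l, f i j l = ∑ i, ∑ j, ∑ l, f j i l := fun f => by
      rw [Finset.sum_comm]
    have s23 : ∀ f : Fin (10 * m - 1) → Fin (10 * m - 1) → Fin (10 * m - 1) → ℝ,
        ∑ i, ∑ j, ∑ l, f i j l = ∑ i, ∑ j, ∑ l, f i l j := fun f => by
      apply Finset.sum_congr rfl
      intro i _
      rw [Finset.sum_comm]
    set κ := fun i j l => kern d n F (x i) (x j) (x l) with hκ
    have q0 : ∑ i, ∑ j, ∑ l, T i j l * κ i l j = ∑ i, ∑ j, ∑ l, T i j l * κ i j l := by
      rw [s23]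
      simp only [hT23]
    have q1 : ∑ i, ∑ j, ∑ l, T i j l * κ j i l = ∑ i, ∑ j, ∑ l, T i j l * κ i j l := by
      rw [s12]
      simp only [hT12]
    have q2 : ∑ i, ∑ j, ∑ l, T i j l * κ j l i = ∑ i, ∑ j, ∑ l, T i j l * κ i j l := by
      rw [s12]
      simp only [hT12]
      exact q0
    have q3 : ∑ i, ∑ j, ∑ l, T i j l * κ l i j = ∑ i, ∑ j, ∑ l, T i j l * κ i j l := by
      rw [s23]
      simp only [hT23]
      exact q1
    have q4 : ∑ i, ∑ j, ∑ l, T i j l * κ l j i = ∑ i, ∑ j, ∑ l, T i j l * κ i j l := by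
      rw [s12]
      simp only [hT12]
      exact q3
    rw [hS3]
    have e : ∀ i j l, T i j l * symm (kern d n F) (x i) (x j) (x l)
        = (T i j l * κ i j l + T i j l * κ i l j + T i j l * κ j i l + T i j l * κ j l i
          + T i j l * κ l i j + T i j l * κ l j i) / 6 := by
      intro i j l
      simp only [symm, hκ]
      ring
    simp only [e, ← Finset.sum_div, Finset.sum_add_distrib, q0, q1, q2, q3, q4]
    ring
  -- positive semidefiniteness
  have hker : ∀ u v t, kern d n F u v t = ∑ k : Fin n, ∑ i : Fin n, ∑ j : Fin n,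
      F k i j * (u ^ (i : ℕ) * v ^ (j : ℕ)) * Qh D u v t k := by
    intro u v t
    unfold kern
    simp only [bvPoly_eq d hd4]
    rfl
  have hpsd : 0 ≤ symm (kern d n F) 1 1 1 + X * (3 * S1) + X ^ 2 * S3 := by
    have hk : ∀ k : Fin n, 0 ≤ ∑ i : Fin n, ∑ j : Fin n, F k i j * MM D w x X k i j := fun k =>
      trace_aux (hf.F_psd k) (fun i j => MM D w x X k i j) (fun i j => MM_symm X k i j)
        (fun q => MM_psd hD2 hw hg hsum hdiag hε0.le hX0.le hXε.le hmom k q)
    have htot : 0 ≤ ∑ k : Fin n, ∑ i : Fin n, ∑ j : Fin n, F k i j * MM D w x X k i j :=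
      Finset.sum_nonneg fun k _ => hk k
    refine htot.trans (le_of_eq ?_)
    have e1 : symm (kern d n F) 1 1 1 = kern d n F 1 1 1 := by unfold symm; ring
    have e2 : 3 * S1 = ∑ i, w i * (kern d n F (x i) (x i) 1 + kern d n F (x i) 1 (x i)
        + kern d n F 1 (x i) (x i)) := by
      rw [hS1, Finset.mul_sum]
      apply Finset.sum_congr rfl
      intro i _
      unfold symm
      ring
    rw [e1, e2, hsymS3]
    simp only [hker, MM, hT]
    -- expand
    have r1 : ∀ (c : Fin n → Fin n → Fin n → ℝ) (z : Fin n → Fin n → Fin n → ℝ)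
        (y : Fin n → Fin n → Fin n → ℝ) (v : Fin n → Fin n → Fin n → ℝ),
        ∑ k, ∑ i, ∑ j, c k i j * (z k i j + y k i j + v k i j)
        = ∑ k, ∑ i, ∑ j, c k i j * z k i j + ∑ k, ∑ i, ∑ j, c k i j * y k i j
          + ∑ k, ∑ i, ∑ j, c k i j * v k i j := by
      intro c z y v
      simp only [mul_add, Finset.sum_add_distrib]
    rw [r1 (fun k i j => F k i j)]
    congr 1
    · congr 1
      · apply Finset.sum_congr rfl; intro k _
        apply Finset.sum_congr rfl; intro i _
        apply Finset.sum_congr rfl; intro j _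
        simp
      · simp only [Finset.mul_sum, Finset.sum_mul, ← Finset.sum_add_distrib]
        have c2 : ∀ f : Fin n → Fin n → Fin n → Fin (10 * m - 1) → ℝ,
            ∑ k, ∑ i, ∑ j, ∑ s, f k i j s = ∑ s, ∑ k, ∑ i, ∑ j, f k i j s := by
          intro f
          calc ∑ k, ∑ i, ∑ j, ∑ s, f k i j s = ∑ k, ∑ i, ∑ s, ∑ j, f k i j s := by
                apply Finset.sum_congr rfl; intro k _
                apply Finset.sum_congr rfl; intro i _; rw [Finset.sum_comm]
            _ = ∑ k, ∑ s, ∑ i, ∑ j, f k i j s := by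
                apply Finset.sum_congr rfl; intro k _; rw [Finset.sum_comm]
            _ = _ := by rw [Finset.sum_comm]
        rw [c2]
        apply Finset.sum_congr rfl; intro s _
        apply Finset.sum_congr rfl; intro k _
        apply Finset.sum_congr rfl; intro i _
        apply Finset.sum_congr rfl; intro j _
        simp only [one_pow]
        ring
    · simp only [Finset.mul_sum, Finset.sum_mul]
      have c3 : ∀ f : Fin n → Fin n → Fin n → Fin (10 * m - 1) → Fin (10 * m - 1)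
          → Fin (10 * m - 1) → ℝ,
          ∑ k, ∑ i, ∑ j, ∑ p, ∑ q, ∑ r, f k i j p q r
            = ∑ p, ∑ q, ∑ r, ∑ k, ∑ i, ∑ j, f k i j p q r := by
        intro f
        have c2 : ∀ {β : Type} [Fintype β] (f : Fin n → Fin n → Fin n → β → ℝ),
            ∑ k, ∑ i, ∑ j, ∑ s, f k i j s = ∑ s, ∑ k, ∑ i, ∑ j, f k i j s := by
          intro β _ f
          calc ∑ k, ∑ i, ∑ j, ∑ s, f k i j s = ∑ k, ∑ i, ∑ s, ∑ j, f k i j s := by
                apply Finset.sum_congr rfl; intro k _
                apply Finset.sum_congr rfl; intro i _; rw [Finset.sum_comm]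
            _ = ∑ k, ∑ s, ∑ i, ∑ j, f k i j s := by
                apply Finset.sum_congr rfl; intro k _; rw [Finset.sum_comm]
            _ = _ := by rw [Finset.sum_comm]
        rw [c2]
        apply Finset.sum_congr rfl; intro p _
        rw [c2]
        apply Finset.sum_congr rfl; intro q _
        rw [c2]
      rw [c3]
      apply Finset.sum_congr rfl; intro p _
      apply Finset.sum_congr rfl; intro q _
      apply Finset.sum_congr rfl; intro r _
      apply Finset.sum_congr rfl; intro k _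
      apply Finset.sum_congr rfl; intro i _
      apply Finset.sum_congr rfl; intro j _
      ring
  -- the two by two block
  clear_value P1 S1 S3 M3 X ε
  have hb11 : 0 ≤ b 1 1 := hf.b_psd.diag_nonneg
  have hbX : 0 ≤ b 0 0 + 2 * X * b 0 1 + X ^ 2 * b 1 1 := by
    have h3 := hf.b_psd.dotProduct_mulVec_nonneg ![1, X]
    have hs : b 1 0 = b 0 1 := by
      have := hf.b_psd.isHermitian
      have h4 := congrFun (congrFun this 0) 1
      simpa [Matrix.conjTranspose_apply] using h4
    simp [dotProduct, Matrix.mulVec, Fin.sum_univ_two, hs] at h3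
    nlinarith
  have hXX : X ^ 2 * b 1 1 ≤ b 1 1 * (X + X ^ 2 * M3) := by
    have h3 : X ^ 2 ≤ X + X ^ 2 * M3 := by
      have h4 : X ^ 2 * (1 - ε) ≤ X ^ 2 * M3 := mul_le_mul_of_nonneg_left hmass (sq_nonneg X)
      have h5 : X ^ 2 * (1 - ε) = X ^ 2 - X := by
        calc X ^ 2 * (1 - ε) = X ^ 2 - X * (X * ε) := by ring
          _ = _ := by rw [hXε]; ring
      linarith
    nlinarith
  have hpairX : X * P1 + X * (2 * b 0 1 + b 1 1) + X * (3 * S1) ≤ -X := by
    have h3 := mul_le_mul_of_nonneg_left hpair hX0.le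
    calc X * P1 + X * (2 * b 0 1 + b 1 1) + X * (3 * S1)
        = X * (P1 + (2 * b 0 1 + b 1 1) + 3 * S1) := by ring
      _ ≤ X * (-1) := h3
      _ = -X := by rw [mul_neg, mul_one]
  have htripleX : X ^ 2 * (b 1 1 * M3) + X ^ 2 * S3 ≤ 0 := by
    have h3 := mul_le_mul_of_nonneg_left htriple (sq_nonneg X)
    rw [mul_add, mul_zero] at h3
    exact h3
  have hP1X : -(∑' k, a k) ≤ X * P1 := by
    have h3 := mul_le_mul_of_nonneg_left hP1ge hX0.le
    calc -(∑' k, a k) = X * -(ε * ∑' k, a k) := by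
          have : X * -(ε * ∑' k, a k) = -((X * ε) * ∑' k, a k) := by ring
          rw [this, hXε, one_mul]
      _ ≤ _ := h3
  unfold value
  have e5 : b 1 1 * (X + X ^ 2 * M3) = X * b 1 1 + X ^ 2 * (b 1 1 * M3) := by ring
  have e6 : X * (2 * b 0 1 + b 1 1) = 2 * X * b 0 1 + X * b 1 1 := by ring
  rw [e5] at hXX
  rw [e6] at hpairX
  linarith

end Pool.Agent.Helper92.Keep.ThreePointBarrierKeep

/-
Claim text of the hand-in MP_b5f63d_co.ThreePointBarrier (replaced by SdpBarrier, 4 December):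

Proves: There is d0 such that for every d >= d0, every feasible solution (polynomials of any degree) of the Bachoc-Vallentin three-point semidefinite program for the kissing number in dimension d has value at least 2^(0.38 d).
Definitions: gegen d k: Gegenbauer polynomials P_k of S^(d-1), P_k(1)=1. bvPoly d k u v t: Q_k(u,v,t)=((1-u^2)(1-v^2))^(k/2) p_k((t-uv)/sqrt((1-u^2)(1-v^2))), p_k for S^(d-2). kern: K(u,v,t)=sum_k sum_ij F_k(i,j) u^i v^j Q_k. symm: average S over the 6 permutations. IsFeasible: a_k>=0 summable, b (2x2) and all F_k positive semidefinite, sum_(k>=1) a_k P_k(u)+2b12+b22+3S(u,u,1)<=-1 for -1<=u<=1/2, and b22+S(u,v,t)<=0 for u,v,t in [-1,1/2] with 1+2uvt-u^2-v^2-t^2>=0. value: 1+sum a_k+b11+S(1,1,1).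
Relation: Partial answer: a limit of the known methods, no bound for c_+ itself. Each such value bounds tau(d) (Bachoc-Vallentin 2008, not formalised). F=0, b=0 is Delsarte's LP, which contains the proof of c_+<=0.401... So neither the LP nor the three-point SDP can prove c_+<0.38. Independent of our KPointBarrier (all k <= 2^(delta d), but only 0.328). I know no earlier result on the exponent of the SDP. In mind for LPs only: Samorodnitsky 2001, Navon-Samorodnitsky 2005 (binary codes), Torquato-Stillinger 2006, Cohn-Zhao 2014 (packings, 2^(-0.7786 d)).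
-/
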